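import Pool.Agent.Run7.h943.FP.Stm

set_option autoImplicit false
open MeasureTheory ProbabilityTheory Filter Set
open scoped ENNReal Pointwise Topology

namespace Run7.h637.FP

open Pool.Agent.N662.FP Run7.h943.FP

theorem t_LTO : S_LTO := by
  intro Ω _ _ X hX μ hμ κ hk0 hk1 h q hq
  obtain ⟨K, hK⟩ := (h q hq).bound
  rw [Filter.eventually_atTop] at hK
  obtain ⟨t0, ht0⟩ := hK
  have T1 : Tendsto (fun m : ℝ => m ^ (-κ)) atTop (𝓝 0) := tendsto_rpow_neg_atTop hk0
  obtain ⟨M1, hM1⟩ := ((T1.eventually_le_const (by norm_num : (0 : ℝ) < 1 / 4)).and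
    ((eventually_ge_atTop (2 * t0)).and (eventually_ge_atTop 2))).exists_forall_of_atTop
  set M0 : ℝ := max M1 0 with hM0
  have hM00 : 0 ≤ M0 := le_max_right _ _
  set C : ℝ := 2 + |K| * 4 ^ q + (1 + M0) ^ q with hC
  have hC2 : 2 ≤ C := by
    rw [hC]
    have : 0 ≤ |K| * 4 ^ q := by positivity
    have : 0 ≤ (1 + M0) ^ q := by positivity
    linarith
  refine ⟨C, by linarith, ?_⟩
  intro v
  have hm0 : 0 ≤ μ (em v) := apply_nonneg _ _
  set m : ℝ := μ (em v) with hm
  rcases le_or_gt m M0 with hcase | hcase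
  · refine measureReal_le_one.trans ?_
    have h1 : (1 + m) ^ q ≤ (1 + M0) ^ q := Real.rpow_le_rpow (by positivity) (by linarith) hq.le
    have h2 : (1 + m) ^ q ≤ C := by
      rw [hC]
      have : 0 ≤ |K| * 4 ^ q := by positivity
      linarith
    have h3 : 0 < (1 + m) ^ q := Real.rpow_pos_of_pos (by linarith) _
    rw [Real.rpow_neg (by linarith), ← div_eq_mul_inv, le_div_iff₀ h3]
    linarith
  · obtain ⟨g1, g2, g3⟩ := hM1 m (le_of_lt (lt_of_le_of_lt (le_max_left _ _) hcase))
    have hmp : 0 < m := by linarith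
    have e1 : m ^ (1 - κ) = m * m ^ (-κ) := by
      rw [sub_eq_add_neg, Real.rpow_add hmp, Real.rpow_one]
    have hmk : 0 < m ^ (1 - κ) := Real.rpow_pos_of_pos hmp _
    have e2 : m ^ (1 - κ) ≤ m / 4 := by rw [e1]; nlinarith
    set t : ℝ := m - 2 * m ^ (1 - κ) with ht
    have ht1 : m / 2 ≤ t := by rw [ht]; linarith
    have htp : 0 < t := by linarith
    have hsub : {ω | D (env X ω) 0 v < m - C * (1 + m) ^ (1 - κ)} ⊆
        Lft (fun ω v => D (env X ω) 0 v) μ κ t := by
      intro ω hω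
      simp only [Lft, mem_ofPred_eq] at hω ⊢
      intro hsub
      have h1 : m ^ (1 - κ) ≤ (1 + m) ^ (1 - κ) :=
        Real.rpow_le_rpow hmp.le (by linarith) (by linarith)
      have h2 : 2 * m ^ (1 - κ) ≤ C * (1 + m) ^ (1 - κ) :=
        mul_le_mul hC2 h1 hmk.le (by linarith)
      have hin : Pool.Agent.N662.FP.em v ∈ Fat (fun v => D (env X ω) 0 v) t := by
        refine ⟨v, by linarith, ?_, ?_⟩ <;> simp [Pool.Agent.N662.FP.em]
      have h3 := hsub hin
      rw [Set.mem_smul_set] at h3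
      obtain ⟨y, hy, hy2⟩ := h3
      simp only [mem_ofPred_eq] at hy
      have hr : 0 < (1 + t ^ (-κ)) * t := by positivity
      have h4 : m ≤ (1 + t ^ (-κ)) * t := by
        rw [hm, ← hy2, map_smul_eq_mul, Real.norm_eq_abs, abs_of_pos hr]
        nlinarith
      have h5 : (1 + t ^ (-κ)) * t = t + t ^ (1 - κ) := by
        rw [sub_eq_add_neg, Real.rpow_add htp, Real.rpow_one]
        ring
      have h6 : t ^ (1 - κ) ≤ m ^ (1 - κ) :=
        Real.rpow_le_rpow htp.le (by linarith) (by linarith)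
      rw [h5] at h4
      linarith
    have hb := ht0 t (by linarith)
    rw [Real.norm_of_nonneg measureReal_nonneg, Real.norm_of_nonneg (by positivity)] at hb
    have h7 : (volume : Measure Ω).real {ω | D (env X ω) 0 v < m - C * (1 + m) ^ (1 - κ)} ≤
        K * t ^ (-q) := (measureReal_mono hsub (by finiteness)).trans hb
    refine h7.trans ?_
    have h8 : t ^ (-q) ≤ 4 ^ q * (1 + m) ^ (-q) := by
      have e3 : (4 : ℝ) ^ q * (1 + m) ^ (-q) = ((1 + m) / 4) ^ (-q) := by
        rw [Real.div_rpow (by linarith) (by norm_num), Real.rpow_neg (by norm_num : (0 : ℝ) ≤ 4)]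
        field_simp
      rw [e3]
      apply Real.rpow_le_rpow_of_nonpos (by linarith) (by linarith) (by linarith)
    have h9 : 0 ≤ (1 + m) ^ (-q) := by positivity
    have h10 : 0 ≤ t ^ (-q) := by positivity
    calc K * t ^ (-q) ≤ |K| * t ^ (-q) := mul_le_mul_of_nonneg_right (le_abs_self K) h10
      _ ≤ |K| * (4 ^ q * (1 + m) ^ (-q)) := mul_le_mul_of_nonneg_left h8 (abs_nonneg _)
      _ = (|K| * 4 ^ q) * (1 + m) ^ (-q) := by ring
      _ ≤ C * (1 + m) ^ (-q) := by
          apply mul_le_mul_of_nonneg_right _ h9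
          rw [hC]
          have : 0 ≤ (1 + M0) ^ q := by positivity
          linarith

end Run7.h637.FP
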