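import Pool.Agent.Run7.h943.FP.Stm

set_option autoImplicit false
open MeasureTheory ProbabilityTheory Filter Set
open scoped ENNReal Pointwise Topology

namespace Run7.h637.FP

open Pool.Agent.N662.FP Run7.h943.FP

theorem t_RT : S_RT := by
  intro Q m t0 hm hmono hstep hlim
  set θ : ℝ := (2 : ℝ) ^ (-(1 / 4 : ℝ)) with hθ
  have hθ1 : θ < 1 := Real.rpow_lt_one_of_one_lt_of_neg (by norm_num) (by norm_num)
  have hθ0 : 0 < θ := by positivity
  have h1θ : 0 < 1 - θ := by linarith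
  set D : ℝ := (m + 2) ^ (3 / 4 : ℝ) * (2 : ℝ) ^ (3 / 4 : ℝ) / (1 - θ) with hD
  have hD0 : 0 < D := by positivity
  have hDθ : D * (1 - θ) = (m + 2) ^ (3 / 4 : ℝ) * (2 : ℝ) ^ (3 / 4 : ℝ) := by
    rw [hD]; field_simp
  refine ⟨2 * m + 2 + 2 * D, by positivity, ?_⟩
  have T1 : Tendsto (fun N : ℝ => N ^ (-(1 / 4 : ℝ))) atTop (𝓝 0) :=
    tendsto_rpow_neg_atTop (by norm_num)
  filter_upwards [T1.eventually_le_const (show (0 : ℝ) < 1 by norm_num),
    T1.eventually_le_const (show (0 : ℝ) < 1 / D by positivity), eventually_ge_atTop 2,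
    eventually_ge_atTop (t0 / m)] with N h1 h2 h3 h4
  have hN0 : 0 < N := by linarith
  set η : ℝ := N ^ (-(1 / 4 : ℝ)) with hη
  have hη0 : 0 < η := Real.rpow_pos_of_pos hN0 _
  have ht0 : t0 ≤ m * N := by rw [div_le_iff₀ hm] at h4; linarith
  have hDη : D * η ≤ 1 := by
    rw [le_div_iff₀ hD0] at h2; linarith
  have step : ∀ l : ℝ, N + 2 ≤ l → Q (2 * l - 2) ((m + η + D * (2 * l) ^ (-(1 / 4 : ℝ))) * (2 * l)) →
      Q (l - 2) ((m + η + D * l ^ (-(1 / 4 : ℝ))) * l) := by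
    intro l hl hQ
    have hl0 : 0 < l := by linarith
    have e1 : (2 * l) ^ (-(1 / 4 : ℝ)) = θ * l ^ (-(1 / 4 : ℝ)) := by
      rw [Real.mul_rpow (by norm_num) hl0.le]
    have hlp : 0 < l ^ (-(1 / 4 : ℝ)) := Real.rpow_pos_of_pos hl0 _
    have hlη : (2 * l) ^ (-(1 / 4 : ℝ)) ≤ η :=
      Real.rpow_le_rpow_of_nonpos hN0 (by linarith) (by norm_num)
    set a : ℝ := m + η + D * (2 * l) ^ (-(1 / 4 : ℝ)) with ha
    have hal : m ≤ a := by
      rw [ha]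
      have : 0 < D * (2 * l) ^ (-(1 / 4 : ℝ)) := by positivity
      linarith
    have hau : a ≤ m + 2 := by
      rw [ha]
      have : D * (2 * l) ^ (-(1 / 4 : ℝ)) ≤ D * η := mul_le_mul_of_nonneg_left hlη hD0.le
      linarith
    have ha0 : 0 < a := by linarith
    have hQ' := hstep (l - 1) (a * (2 * l)) (by linarith) (by nlinarith) (by
      have : 2 * (l - 1) = 2 * l - 2 := by ring
      rw [this]; exact hQ)
    have e2 : l - 1 - 1 = l - 2 := by ring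
    rw [e2] at hQ'
    refine hmono _ _ _ ?_ hQ'
    have e3 : (a * (2 * l)) ^ (3 / 4 : ℝ) = a ^ (3 / 4 : ℝ) * (2 : ℝ) ^ (3 / 4 : ℝ) *
        l ^ (3 / 4 : ℝ) := by
      rw [Real.mul_rpow ha0.le (by positivity), Real.mul_rpow (by norm_num) hl0.le]
      ring
    have e4 : l ^ (3 / 4 : ℝ) = l ^ (-(1 / 4 : ℝ)) * l := by
      have : (3 / 4 : ℝ) = -(1 / 4) + 1 := by norm_num
      rw [this, Real.rpow_add hl0, Real.rpow_one]
    have e5 : a ^ (3 / 4 : ℝ) ≤ (m + 2) ^ (3 / 4 : ℝ) :=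
      Real.rpow_le_rpow ha0.le hau (by norm_num)
    have e6 : (a * (2 * l)) ^ (3 / 4 : ℝ) ≤ D * (1 - θ) * (l ^ (-(1 / 4 : ℝ)) * l) := by
      rw [e3, hDθ, ← e4]
      apply mul_le_mul_of_nonneg_right _ (by positivity)
      exact mul_le_mul_of_nonneg_right e5 (by positivity)
    have e7 : (m + η + D * l ^ (-(1 / 4 : ℝ))) * l =
        a * (2 * l) / 2 + D * (1 - θ) * (l ^ (-(1 / 4 : ℝ)) * l) := by
      rw [ha, e1]; ring
    rw [e7]
    linarith
  have down : ∀ k : ℕ, Q (2 ^ k * (N + 2) - 2)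
      ((m + η + D * (2 ^ k * (N + 2)) ^ (-(1 / 4 : ℝ))) * (2 ^ k * (N + 2))) →
      Q (N + 2 - 2) ((m + η + D * (N + 2) ^ (-(1 / 4 : ℝ))) * (N + 2)) := by
    intro k
    induction k with
    | zero => intro h; simpa using h
    | succ k ih =>
      intro h
      apply ih
      have e : (2 : ℝ) ^ (k + 1) * (N + 2) = 2 * (2 ^ k * (N + 2)) := by ring
      rw [e] at h
      refine step _ ?_ h
      have : (1 : ℝ) ≤ 2 ^ k := one_le_pow₀ (by norm_num)
      nlinarith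
  obtain ⟨N1, hN1⟩ := (hlim η hη0).exists_forall_of_atTop
  obtain ⟨k, hk⟩ := pow_unbounded_of_one_lt (N1 + 2) (by norm_num : (1 : ℝ) < 2)
  have hk2 : N1 ≤ 2 ^ k * (N + 2) - 2 := by
    have : (1 : ℝ) ≤ 2 ^ k := one_le_pow₀ (by norm_num)
    nlinarith
  have hb := hN1 _ hk2
  have hLk : 0 < (2 : ℝ) ^ k * (N + 2) := by positivity
  have hb2 := down k (hmono _ _ _ (by
    have : 0 < D * (2 ^ k * (N + 2)) ^ (-(1 / 4 : ℝ)) := by positivity
    have h5 : (m + η) * (2 ^ k * (N + 2) - 2) ≤ (m + η) * (2 ^ k * (N + 2)) := by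
      have : 0 < m + η := by linarith
      nlinarith
    refine h5.trans ?_
    apply mul_le_mul_of_nonneg_right _ hLk.le
    linarith) hb)
  have e8 : N + 2 - 2 = N := by ring
  rw [e8] at hb2
  refine hmono _ _ _ ?_ hb2
  have h34 : N ^ (3 / 4 : ℝ) = η * N := by
    have : (3 / 4 : ℝ) = -(1 / 4) + 1 := by norm_num
    rw [this, Real.rpow_add hN0, Real.rpow_one]
  have h34' : 1 ≤ N ^ (3 / 4 : ℝ) := Real.one_le_rpow (by linarith) (by norm_num)
  have hN2 : (N + 2) ^ (-(1 / 4 : ℝ)) ≤ η :=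
    Real.rpow_le_rpow_of_nonpos hN0 (by linarith) (by norm_num)
  have f1 : D * (N + 2) ^ (-(1 / 4 : ℝ)) * (N + 2) ≤ 2 * D * N ^ (3 / 4 : ℝ) := by
    calc D * (N + 2) ^ (-(1 / 4 : ℝ)) * (N + 2) ≤ D * η * (2 * N) := by
          apply mul_le_mul _ (by linarith) (by linarith) (by positivity)
          exact mul_le_mul_of_nonneg_left hN2 hD0.le
      _ = 2 * D * N ^ (3 / 4 : ℝ) := by rw [h34]; ring
  have f2 : η * (N + 2) ≤ 2 * N ^ (3 / 4 : ℝ) := by
    rw [h34]; nlinarith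
  have f3 : 2 * m ≤ 2 * m * N ^ (3 / 4 : ℝ) := by nlinarith
  calc (m + η + D * (N + 2) ^ (-(1 / 4 : ℝ))) * (N + 2) =
        m * N + 2 * m + η * (N + 2) + D * (N + 2) ^ (-(1 / 4 : ℝ)) * (N + 2) := by ring
    _ ≤ m * N + 2 * m * N ^ (3 / 4 : ℝ) + 2 * N ^ (3 / 4 : ℝ) + 2 * D * N ^ (3 / 4 : ℝ) := by
        linarith
    _ = m * N + (2 * m + 2 + 2 * D) * N ^ (3 / 4 : ℝ) := by ring

end Run7.h637.FP
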